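import Pool.Agent.H88.MCR.Stmts

set_option autoImplicit false

namespace Pool.MCR

theorem kit_thm (hARN : ARN_S) (hAHD : AHD_S) : KIT_S := by
  intro L _ n D hD
  have hP : ∀ x < n, ∀ y < n, x ≠ y → (D.P x y).Nodup := by
    intro x hx y hy hxy
    unfold Diag.P
    rw [List.nodup_cons]
    refine ⟨?_, ?_⟩
    · intro h
      rcases List.mem_append.1 h with h | h
      · exact hD.notin x hx y hy x hx hxy h
      · rw [List.mem_singleton] at h
        exact hxy (hD.pos_inj x hx y hy h)
    · rw [List.nodup_append]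
      refine ⟨hD.nodup x hx y hy hxy, List.nodup_singleton _, ?_⟩
      intro a ha b hb hab
      rw [List.mem_singleton] at hb
      rw [hab, hb] at ha
      exact hD.notin x hx y hy y hy hxy ha
  have hnx : ∀ x y, D.nx x y ∈ D.E x y ++ [D.pos y] := by
    intro x y
    unfold Diag.nx
    cases D.E x y <;> simp
  have hnx' : ∀ x < n, ∀ y < n, x ≠ y → D.nx x y ≠ D.pos x := by
    intro x hx y hy hxy h
    have h1 := hP x hx y hy hxy
    unfold Diag.P at h1
    rw [List.nodup_cons] at h1
    exact h1.1 (h ▸ hnx x y)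
  have hmem : ∀ x y c, c ∈ D.P x y → c = D.pos x ∨ c ∈ D.E x y ∨ c = D.pos y := by
    intro x y c hc
    unfold Diag.P at hc
    simpa using hc
  have h2 : ∀ x < n, ∀ y < n, ∀ z < n, ∀ t < n, x ≠ y → z ≠ t → ¬ (x = z ∧ y = t) →
    ¬ (x = t ∧ y = z) → ∀ c, c ∈ D.P x y → c ∈ D.P z t →
      (c = D.pos x ∧ (x = z ∨ x = t)) ∨ (c = D.pos y ∧ (y = z ∨ y = t)) := by
    intro x hx y hy z hz t ht hxy hzt h1 h2 c hc hc'
    rcases hmem x y c hc with h | h | h
    · left
      refine ⟨h, ?_⟩
      rcases hmem z t c hc' with h' | h' | h'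
      · exact Or.inl (hD.pos_inj x hx z hz (h.symm.trans h'))
      · rw [h] at h'
        exact absurd h' (hD.notin z hz t ht x hx hzt)
      · exact Or.inr (hD.pos_inj x hx t ht (h.symm.trans h'))
    · rcases hmem z t c hc' with h' | h' | h'
      · rw [h'] at h
        exact absurd h (hD.notin x hx y hy z hz hxy)
      · rcases hD.disj x hx y hy z hz t ht hxy hzt c h h' with h3 | h3
        · exact absurd h3 h1
        · exact absurd h3 h2
      · rw [h'] at h
        exact absurd h (hD.notin x hx y hy t ht hxy)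
    · right
      refine ⟨h, ?_⟩
      rcases hmem z t c hc' with h' | h' | h'
      · exact Or.inl (hD.pos_inj y hy z hz (h.symm.trans h'))
      · rw [h] at h'
        exact absurd h' (hD.notin z hz t ht y hy hzt)
      · exact Or.inr (hD.pos_inj y hy t ht (h.symm.trans h'))
  refine ⟨?_, h2, ?_⟩
  · intro x hx y hy hxy
    have hn := hP x hx y hy hxy
    obtain ⟨a1, a2⟩ := hARN L (D.P x y) (D.S x y) hn
    have hb := hAHD L (D.pos x) (D.E x y) (D.pos y) (D.S x y) hn
    refine ⟨hn, hnx' x hx y hy hxy, hb.1, ?_, ?_⟩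
    · intro t a b h
      obtain ⟨c1, c2, c3⟩ := a1 t a b h
      obtain ⟨c4, c5, c6⟩ := hb.2 t a b h
      exact ⟨c1, c2, c3, c4, c5, c6⟩
    · intro t a b c d h h' hne
      exact (a2 t a b t c d h h').2.2.2.2 rfl hne
  · intro x hx y hy z hz hxy hxz hyz h
    have m1 : D.nx x y ∈ D.P x y := by
      unfold Diag.P
      exact List.mem_cons_of_mem _ (hnx x y)
    have m2 : D.nx x y ∈ D.P x z := by
      rw [h]
      unfold Diag.P
      exact List.mem_cons_of_mem _ (hnx x z)
    rcases h2 x hx y hy x hx z hz hxy hxz (fun h => hyz h.2) (fun h => hxy h.2.symm) _ m1 m2 with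
      h3 | h3
    · exact hnx' x hx y hy hxy h3.1
    · rcases h3.2 with h4 | h4
      · exact hxy h4.symm
      · exact hyz h4

end Pool.MCR
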