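import Pool.Agent.H88.MCR.Stmts

set_option autoImplicit false

namespace Pool.MCR

theorem tgd_thm (hOLD : OLD_S) (hTWA : TWA_S) (hTWC : TWC_S) : TGD_S := by
  intro L _ n D w x hD hw hx hxw hF
  obtain ⟨o1, -, -⟩ := hOLD L
  obtain ⟨-, o2, o3⟩ := hOLD (L ×ₗ ℤ)
  obtain ⟨a1, a2, a3⟩ := hTWA L n D w x hD hw hx hxw hF.1
  obtain ⟨c1, c2, c3, c4, -⟩ := hTWC L n D w x hD hw hx hxw hF
  have lpi : ∀ (a b : L) (k l : ℤ), lp a k = lp b l → a = b ∧ k = l := by
    intro a b k l h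
    have h1 : (a, k) = (b, l) := toLex.injective h
    exact Prod.mk.inj h1
  -- members
  have hE : ∀ a < n, ∀ b < n, a ≠ b → ∀ c, c ∈ (twist D w x).E a b ↔
      ((c = lp (D.pos w) 1 ∧ ((a = w ∧ b = x) ∨ (a = x ∧ b = w))) ∨
        ∃ e ∈ D.E a b, c = lp e 0) := by
    intro a ha b hb hab c
    unfold twist
    simp only
    by_cases h1 : a = w ∧ b = x
    · rw [if_pos h1]
      obtain ⟨rfl, rfl⟩ := h1
      simp only [List.mem_cons, List.mem_map]
      constructor
      · rintro (h | ⟨e, he, h⟩)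
        · exact Or.inl ⟨h, by simp⟩
        · exact Or.inr ⟨e, he, h.symm⟩
      · rintro (h | ⟨e, he, h⟩)
        · exact Or.inl h.1
        · exact Or.inr ⟨e, he, h.symm⟩
    · rw [if_neg h1]
      by_cases h2 : a = x ∧ b = w
      · rw [if_pos h2]
        obtain ⟨rfl, rfl⟩ := h2
        simp only [List.mem_reverse, List.mem_cons, List.mem_map]
        constructor
        · rintro (h | ⟨e, he, h⟩)
          · exact Or.inl ⟨h, by simp⟩
          · exact Or.inr ⟨e, hD.symE _ hb _ ha hab.symm e he, h.symm⟩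
        · rintro (h | ⟨e, he, h⟩)
          · exact Or.inl h.1
          · exact Or.inr ⟨e, hD.symE _ ha _ hb hab e he, h.symm⟩
      · rw [if_neg h2]
        simp only [List.mem_map]
        constructor
        · rintro ⟨e, he, h⟩
          exact Or.inr ⟨e, he, h.symm⟩
        · rintro (h | ⟨e, he, h⟩)
          · rcases h.2 with h3 | h3
            · exact absurd h3 h1
            · exact absurd h3 h2
          · exact ⟨e, he, h.symm⟩
  have r1 : ∀ t a b, (t, a, b) ∈ (twist D w x).A w x → (t, b, a) ∈ (twist D w x).A x w :=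
    fun t a b h => (a2 t a b).1 h
  have r2 : ∀ t a b, (t, a, b) ∈ (twist D w x).A x w → (t, b, a) ∈ (twist D w x).A w x :=
    fun t a b h => (a2 t b a).2 h
  have rv := fun β => o2 ((twist D w x).A w x) ((twist D w x).A x w) β r1 r2
  refine ⟨?_, ?_, ?_, ?_, ?_, ?_, ?_, ?_, ?_⟩
  · intro a ha b hb h
    exact hD.pos_inj a ha b hb (lpi _ _ _ _ h).1
  · intro a ha b hb z hz hab h
    rw [hE a ha b hb hab] at h
    rcases h with ⟨h, -⟩ | ⟨e, he, h⟩
    · exact absurd (lpi _ _ _ _ h).2 (by norm_num)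
    · rw [← (lpi _ _ _ _ h).1] at he
      exact hD.notin a ha b hb z hz hab he
  · intro a ha b hb hab
    have inj0 : Function.Injective (fun c : L => lp c 0) := fun c d h => (lpi _ _ _ _ h).1
    have hn : (lp (D.pos w) 1 :: (D.E w x).map (fun c => lp c 0)).Nodup := by
      rw [List.nodup_cons]
      refine ⟨?_, (hD.nodup w hw x hx hxw.symm).map inj0⟩
      intro h
      rw [List.mem_map] at h
      obtain ⟨e, -, h⟩ := h
      exact absurd (lpi _ _ _ _ h).2 (by norm_num)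
    unfold twist
    simp only
    split_ifs with h1 h2
    · exact hn
    · exact List.nodup_reverse.2 hn
    · exact (hD.nodup a ha b hb hab).map inj0
  · intro a ha b hb z hz t ht hab hzt c h h'
    rw [hE a ha b hb hab] at h
    rw [hE z hz t ht hzt] at h'
    rcases h with ⟨h, k⟩ | ⟨e, he, h⟩
    · rcases h' with ⟨h', k'⟩ | ⟨e', he', h'⟩
      · rcases k with ⟨rfl, rfl⟩ | ⟨rfl, rfl⟩ <;> rcases k' with ⟨rfl, rfl⟩ | ⟨rfl, rfl⟩ <;>
          simp
      · exact absurd (lpi _ _ _ _ (h.symm.trans h')).2 (by norm_num)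
    · rcases h' with ⟨h', k'⟩ | ⟨e', he', h'⟩
      · exact absurd (lpi _ _ _ _ (h.symm.trans h')).2 (by norm_num)
      · have h3 := (lpi _ _ _ _ (h.symm.trans h')).1
        rw [← h3] at he'
        exact hD.disj a ha b hb z hz t ht hab hzt e he he'
  · intro a ha b hb hab c h
    rw [hE a ha b hb hab] at h
    rw [hE b hb a ha hab.symm]
    rcases h with ⟨h, k⟩ | ⟨e, he, h⟩
    · exact Or.inl ⟨h, k.elim (fun k => Or.inr ⟨k.2, k.1⟩) (fun k => Or.inl ⟨k.2, k.1⟩)⟩
    · exact Or.inr ⟨e, hD.symE a ha b hb hab e he, h⟩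
  · intro y hy z hz hyz s a b h
    by_cases h1 : y = w ∧ z = x
    · obtain ⟨rfl, rfl⟩ := h1
      exact r1 s a b h
    · by_cases h2 : y = x ∧ z = w
      · obtain ⟨rfl, rfl⟩ := h2
        exact r2 s a b h
      · rw [a3 y z h1 h2] at h
        rw [a3 z y (fun k => h2 ⟨k.2, k.1⟩) (fun k => h1 ⟨k.2, k.1⟩)]
        rw [List.mem_map] at h ⊢
        obtain ⟨⟨s', a', b'⟩, hA, e⟩ := h
        unfold l0 at e
        simp only [Prod.mk.injEq] at e
        obtain ⟨rfl, rfl, rfl⟩ := e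
        exact ⟨(s', b', a'), hD.symA y hy z hz hyz s' a' b' hA, rfl⟩
  · intro a ha b hb c hc hab hac hbc
    by_cases h1 : a = w ∧ b = x
    · obtain ⟨rfl, rfl⟩ := h1
      exact c2 c hc hac.symm hbc.symm
    by_cases h2 : a = x ∧ b = w
    · obtain ⟨rfl, rfl⟩ := h2
      exact (rv _).1.1 (c3 c hc hbc.symm hac.symm)
    by_cases h3 : a = w ∧ c = x
    · obtain ⟨rfl, rfl⟩ := h3
      exact (o3 _ _).1.1 (c2 b hb hab.symm hbc)
    by_cases h4 : a = x ∧ c = w
    · obtain ⟨rfl, rfl⟩ := h4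
      exact (o3 _ _).1.1 ((rv _).1.1 (c3 b hb hbc hab.symm))
    rw [a3 a b h1 h2, a3 a c h3 h4]
    exact (o1 _ _).1.2 (hD.adj a ha b hb c hc hab hac hbc)
  · intro a ha b hb hab
    by_cases h1 : a = w ∧ b = x
    · obtain ⟨rfl, rfl⟩ := h1
      exact c1
    by_cases h2 : a = x ∧ b = w
    · obtain ⟨rfl, rfl⟩ := h2
      exact (rv _).1.1 ((rv _).2.1.1 c1)
    rw [a3 a b h1 h2]
    exact (o1 _ _).1.2 (hD.self a ha b hb hab)
  · intro a ha b hb c hc d hd hab hcd hac had hbc hbd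
    by_cases h1 : a = w ∧ b = x
    · obtain ⟨rfl, rfl⟩ := h1
      exact c4 c hc d hd hcd hac.symm hbc.symm had.symm hbd.symm
    by_cases h2 : a = x ∧ b = w
    · obtain ⟨rfl, rfl⟩ := h2
      exact (rv _).2.2.1.1 (c4 c hc d hd hcd hbc.symm hac.symm hbd.symm had.symm)
    by_cases h3 : c = w ∧ d = x
    · obtain ⟨rfl, rfl⟩ := h3
      exact (o3 _ _).2.1.1 (c4 a ha b hb hab hac had hbc hbd)
    by_cases h4 : c = x ∧ d = w
    · obtain ⟨rfl, rfl⟩ := h4
      exact (o3 _ _).2.1.1 ((rv _).2.2.1.1 (c4 a ha b hb hab had hac hbd hbc))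
    rw [a3 a b h1 h2, a3 c d h3 h4]
    exact (o1 _ _).2.1.2 (hD.two a ha b hb c hc d hd hab hcd hac had hbc hbd)

end Pool.MCR
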